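import Pool.Agent.Lib.MP_9dbb0e_al.Y5
import Pool.Agent.Lib.MP_9dbb0e_al.Q

/-!
# Reduction of the power alternative to irreducible parabolic subgroups with finite labels

`Artin M` is the Artin group of the Coxeter matrix `M` (the entry `0` stands for `∞`, that is, for no
relation) and `PowerAlternative G` is the property asked for in Q1: for all `a b : G` there is
`n ≥ 1` such that the subgroup generated by `a ^ n` and `b ^ n` is free or free abelian of finite
rank.

Theorem. If the Artin groups `A_K` have this property for all irreducible sets `K` of at least three
generators all of whose labels are finite, then the Artin group of `M` has it. There is no condition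
on the parabolic subgroups.

Proof. Let `m(s, t) = ∞`. The Artin group `A` of `M` is the amalgam of the standard parabolic
subgroups on `S - s` and on `S - t` over the one on `S - {s, t}`. It acts on the Bass-Serre tree.
Key statement: for every standard parabolic subgroup `A_R` there are a subgroup `N` of `A` containing
`A_R` and a homomorphism `N → A_R` injective on `A_R`, such that for every `g` in `A` either a
positive power of `g` is in `N`, or there are a proper subset `R'` of `R` and an element `c` with
`c (A_R ∩ g⁻¹ A_R g) c⁻¹ ⊆ A_R'`. For the proof let `A` act on the product of the set of the shortest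
representatives of `W / W_R` and `A_R` (the monodromy action which also proves the theorem of van der
Lek); `g` maps `(1, 1)` to `(v, c)`. If `v` normalises `R`, then a power of `v` centralises `W_R` and
the corresponding power of `g` is in `N = {g | v centralises W_R}`; otherwise `R'` is the set of the
labels which occur in the class `W_R v`.
Now take a geodesic ray of the tree. Among all conjugates of proper standard parabolic subgroups
containing the pointwise stabilizer of an initial segment, choose one of smallest rank. If `g`
translates the ray, the second alternative of the key statement is excluded, so `N` contains the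
stabilizer of a long initial segment and a power of each `g` translating the ray. If the axes of two
hyperbolic elements `a`, `b` share a ray, one passes to the group `N`, where the commutator of powers
of `a` and `b` is in the kernel of `N → A_R` and fixes a long segment, hence is trivial. If the axes
share only a bounded segment, powers of `a` and `b` play ping-pong. The case of a hyperbolic and an
elliptic element is similar, and two elliptic elements either have powers with a common fixed point
or powers which play ping-pong. The induction ends with sets `K` without infinite labels; direct
products and dihedral Artin groups (amalgams of abelian groups) are treated by the same methods.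
-/

set_option autoImplicit false

namespace Pool.Agent.Results.MP_9dbb0e_al.CompleteReduction

/-- The Artin group of the Coxeter matrix `M`; the entry `0` means that there is no relation. -/
abbrev Artin {B : Type} (M : CoxeterMatrix B) : Type :=
  PresentedGroup {r : FreeGroup B | ∃ i j : B, i ≠ j ∧ M.M i j ≠ 0 ∧
    r = ((List.range (M.M i j)).map
          (fun k => if Even k then FreeGroup.of i else FreeGroup.of j)).prod *
        (((List.range (M.M i j)).map
          (fun k => if Even k then FreeGroup.of j else FreeGroup.of i)).prod)⁻¹}

/-- The property asked for in Q1: for all `a b : G` there is `n ≥ 1` such that the subgroup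
generated by `a ^ n` and `b ^ n` is a free group or isomorphic to `ℤ ^ k` for some `k`. -/
def PowerAlternative (G : Type) [Group G] : Prop :=
  ∀ a b : G, ∃ n : ℕ, 0 < n ∧
    (IsFreeGroup ↥(Subgroup.closure {a ^ n, b ^ n}) ∨
      ∃ k : ℕ, Nonempty (↥(Subgroup.closure {a ^ n, b ^ n}) ≃* Multiplicative (Fin k → ℤ)))

/-- The submatrix of `M` of the generators in `K`. -/
def restrict {B : Type} (M : CoxeterMatrix B) (K : Set B) : CoxeterMatrix {i : B // i ∈ K} where
  M := fun i j => M.M i.1 j.1
  isSymm := by
    ext i j
    exact M.symmetric j.1 i.1
  diagonal := fun i => M.diagonal i.1
  off_diagonal := fun i j h => M.off_diagonal i.1 j.1 (fun h' => h (Subtype.ext h'))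

/-- All labels between elements of `K` are finite. -/
def FiniteLabels {B : Type} (M : CoxeterMatrix B) (K : Set B) : Prop :=
  ∀ i ∈ K, ∀ j ∈ K, M.M i j ≠ 0

/-- `K` is irreducible: it is not the union of two disjoint nonempty subsets `U`, `V` such that all
labels between `U` and `V` are `2`. -/
def IrreducibleSet {B : Type} (M : CoxeterMatrix B) (K : Set B) : Prop :=
  ¬ ∃ U V : Set B, U ∪ V = K ∧ Disjoint U V ∧ U.Nonempty ∧ V.Nonempty ∧
    ∀ i ∈ U, ∀ j ∈ V, M.M i j = 2

open Pool.Agent.Lib.MP_9dbb0e_al in
/-- **Reduction to irreducible sets of at least three generators with finite labels.** If Q1 has a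
positive answer for the Artin groups of the restrictions of `M` to the irreducible sets `K` with at
least three elements and without infinite labels, then it has one for the Artin group of `M`. -/
theorem result (B : Type) [Finite B] (M : CoxeterMatrix B)
    (h : ∀ K : Set B, 3 ≤ K.ncard → FiniteLabels M K → IrreducibleSet M K →
      PowerAlternative (Artin (restrict M K))) :
    PowerAlternative (Artin M) := by
  refine Q1_of_PA (PA_cliques3 M fun p hp hi hc => ?_)
  refine PA_of_Q1 (G := Artin (restrict M {i | p i})) (h {i | p i} hc ?_ ?_)
  · intro i hi' j hj'
    exact hp i j hi' hj'
  · rintro ⟨U, V, hUV, hd, ⟨x, hx⟩, ⟨y, hy⟩, h2⟩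
    have hU : ∀ i, i ∈ U → p i := fun i hi' => by
      have : i ∈ U ∪ V := Or.inl hi'
      rw [hUV] at this
      exact this
    have hV : ∀ i, i ∈ V → p i := fun i hi' => by
      have : i ∈ U ∪ V := Or.inr hi'
      rw [hUV] at this
      exact this
    obtain ⟨i, j, h3, h4, h5, h6, h7⟩ := hi (fun i => i ∈ U) ⟨x, hU x hx, hx⟩
      ⟨y, hV y hy, fun h8 => Set.disjoint_left.1 hd h8 hy⟩
    have h9 : j ∈ V := by
      have h10 : j ∈ U ∪ V := by
        rw [hUV]
        exact h5
      exact h10.resolve_left h6
    exact h7 (h2 i h4 j h9)

end Pool.Agent.Results.MP_9dbb0e_al.CompleteReduction
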