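import Pool.Agent.Lib.MP_9dbb0e_al.Y5
import Pool.Agent.Lib.MP_9dbb0e_al.Q
import Pool.Agent.Lib.MP_9dbb0e_al.D.Fin

/-!
# Powers of two elements in the Artin groups of types `G₂~`, `C₂~`, `A₂~`, `B₃`, `A₃`, without hypotheses

`Artin M` is the Artin group of the Coxeter matrix `M` (the entry `0` stands for `∞`, that is, for no
relation) and `PowerAlternative G` is the property asked for in Q1: for all `a b : G` there is
`n ≥ 1` such that the subgroup generated by `a ^ n` and `b ^ n` is free or free abelian of finite
rank.

Theorem. The Artin group of affine type `G₂~` (three generators, labels `3`, `6`, `2`) has the property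
asked for in Q1, and so has the Artin group of every Coxeter matrix `M` on a finite set such that every
irreducible subset `K` with at least three elements and without infinite labels consists of three
elements and is of type `A₃`, `B₃`, `G₂~`, `C₂~` or `A₂~`. Nothing is assumed; in particular the known
theorem for braid groups is not used, and its case of four strands is proved by the way.

Outline of the proof. Let `G` be the braid group on four strands or the Artin group of type `G₂~`.
There are homomorphisms `lin : G → SL(2, ℤ)` (onto) and `L : G → SL(3, ℤ)`, an action on the affine plane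
with linear part `lin`, and `G` acts by automorphisms on a free group with an infinite basis (the
kernel of the action on the plane in a normal free subgroup of rank two or seven), which map basis
elements to conjugates of basis elements in the same way as `L` permutes certain points of the plane.
It is enough to treat pairs whose images in `SL(2, ℤ)` commute, since a retraction of `G` onto the
braid group on three strands, a group with the property, induces `lin`.
(1) Pairs with commuting hyperbolic images (after conjugation and passing to powers: the images are
equal or the second one is trivial). `L` is the fibre at the base point `(2, 2, 2)` of an action of `G` on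
the trivial bundle over `ℝ ^ 3`, on which `G` acts by polynomial automorphisms preserving the
function `x ^ 2 + y ^ 2 + z ^ 2 - x y z`, with a family of invariant quadratic forms, degenerate at the base
point. If the values of `L` do not commute then a curve of fixed points of the first element starts at
the base point, and on nearby fibres the two elements have four different isotropic fixed
lines; table tennis shows that powers are free generators. If they commute one is reduced to
elements which act by inner automorphisms on the free group, and a Magnus expansion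
shows that they commute with the first element or generate a free group with it.
(2) Pairs with commuting parabolic images. Their powers are in a subgroup `F ⋊ ℤ`, where `F` is free of
rank two or seven and the generator of `ℤ` acts by a product of twists; it is
embedded in an amalgamated product of groups with the property (for rank seven: of groups
`F' × ℤ` with free `F'`), to which a theorem on groups acting on trees applies.
The types `A₃`, `B₃`, `C₂~`, `A₂~` are subgroups of the braid group on four strands, and the reduction to
irreducible subsets without infinite labels is `CompleteReduction`.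
-/

set_option autoImplicit false

namespace Pool.Agent.Results.MP_9dbb0e_al.RankThreeTypes

/-- The Artin group of the Coxeter matrix `M`; the entry `0` means that there is no relation. -/
abbrev Artin {B : Type} (M : CoxeterMatrix B) : Type :=
  PresentedGroup {r : FreeGroup B | ∃ i j : B, i ≠ j ∧ M.M i j ≠ 0 ∧
    r = ((List.range (M.M i j)).map
          (fun k => if Even k then FreeGroup.of i else FreeGroup.of j)).prod *
        (((List.range (M.M i j)).map
          (fun k => if Even k then FreeGroup.of j else FreeGroup.of i)).prod)⁻¹}

/-- The property asked for in Q1: for all `a b : G` there is `n ≥ 1` such that the subgroup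
generated by `a ^ n` and `b ^ n` is a free group or isomorphic to `ℤ ^ k` for some `k`. -/
def PowerAlternative (G : Type) [Group G] : Prop :=
  ∀ a b : G, ∃ n : ℕ, 0 < n ∧
    (IsFreeGroup ↥(Subgroup.closure {a ^ n, b ^ n}) ∨
      ∃ k : ℕ, Nonempty (↥(Subgroup.closure {a ^ n, b ^ n}) ≃* Multiplicative (Fin k → ℤ)))

/-- The Coxeter matrix of affine type `G₂~`: the labels are `3`, `6` and `2`. -/
def affineG2 : CoxeterMatrix (Fin 3) where
  M := !![1, 3, 2; 3, 1, 6; 2, 6, 1]

/-- All labels between elements of `K` are finite. -/
def FiniteLabels {B : Type} (M : CoxeterMatrix B) (K : Set B) : Prop :=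
  ∀ i ∈ K, ∀ j ∈ K, M.M i j ≠ 0

/-- `K` is irreducible: it is not the union of two disjoint nonempty subsets `U`, `V` such that all
labels between `U` and `V` are `2`. -/
def IrreducibleSet {B : Type} (M : CoxeterMatrix B) (K : Set B) : Prop :=
  ¬ ∃ U V : Set B, U ∪ V = K ∧ Disjoint U V ∧ U.Nonempty ∧ V.Nonempty ∧
    ∀ i ∈ U, ∀ j ∈ V, M.M i j = 2

/-- `K` consists of three elements `a`, `b`, `c` and is of one of the types `A₃`, `B₃`, `G₂~`, `C₂~`,
`A₂~`. -/
def BraidTriple {B : Type} (M : CoxeterMatrix B) (K : Set B) : Prop :=
  ∃ a b c : B, K = {a, b, c} ∧
    ((M.M a b = 3 ∧ M.M b c = 3 ∧ M.M a c = 2) ∨ (M.M a b = 3 ∧ M.M b c = 4 ∧ M.M a c = 2) ∨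
      (M.M a b = 3 ∧ M.M b c = 6 ∧ M.M a c = 2) ∨ (M.M a b = 4 ∧ M.M b c = 4 ∧ M.M a c = 2) ∨
      (M.M a b = 3 ∧ M.M b c = 3 ∧ M.M a c = 3))

open Pool.Agent.Lib.MP_9dbb0e_al in
/-- **Q1 for the Artin group of type `G₂~`, and for all Artin groups whose irreducible parabolic
subgroups with at least three generators and without infinite labels are of type `A₃`, `B₃`, `G₂~`, `C₂~`
or `A₂~`.** -/
theorem result :
    PowerAlternative (Artin affineG2) ∧
    ∀ (B : Type) [Finite B] (M : CoxeterMatrix B),
      (∀ K : Set B, 3 ≤ K.ncard → FiniteLabels M K → IrreducibleSet M K → BraidTriple M K) →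
      PowerAlternative (Artin M) := by
  have hu : ∀ i : Fin 3, i = 0 ∨ i = 1 ∨ i = 2 := by decide
  have h01 : affineG2.M 0 1 = 3 := rfl
  have h02 : affineG2.M 0 2 = 2 := rfl
  have h12 : affineG2.M 1 2 = 6 := rfl
  refine ⟨Q1_of_PA (DF.PA_five affineG2 hu (Or.inr (Or.inr (Or.inl ⟨h01, h12, h02⟩)))), ?_⟩
  intro B _ M h
  refine Q1_of_PA (PA_cliques3 M fun p hp hi hc => ?_)
  have hK : BraidTriple M {i | p i} := by
    refine h {i | p i} hc ?_ ?_
    · intro i hi' j hj'
      exact hp i j hi' hj'
    · rintro ⟨U, V, hUV, hd, ⟨x, hx⟩, ⟨y, hy⟩, h2⟩
      have hU : ∀ i, i ∈ U → p i := fun i hi' => by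
        have : i ∈ U ∪ V := Or.inl hi'
        rw [hUV] at this
        exact this
      have hV : ∀ i, i ∈ V → p i := fun i hi' => by
        have : i ∈ U ∪ V := Or.inr hi'
        rw [hUV] at this
        exact this
      obtain ⟨i, j, h3, h4, h5, h6, h7⟩ := hi (fun i => i ∈ U) ⟨x, hU x hx, hx⟩
        ⟨y, hV y hy, fun h8 => Set.disjoint_left.1 hd h8 hy⟩
      have h9 : j ∈ V := by
        have h10 : j ∈ U ∪ V := by
          rw [hUV]
          exact h5
        exact h10.resolve_left h6
      exact h7 (h2 i h4 j h9)
  obtain ⟨a, b, c, hKe, hK⟩ := hK
  have ha : p a := by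
    have : a ∈ {i | p i} := by rw [hKe]; exact Or.inl rfl
    exact this
  have hb1 : p b := by
    have : b ∈ {i | p i} := by rw [hKe]; exact Or.inr (Or.inl rfl)
    exact this
  have hc1 : p c := by
    have : c ∈ {i | p i} := by rw [hKe]; exact Or.inr (Or.inr rfl)
    exact this
  refine DF.PA_five (sub M p) (a := ⟨a, ha⟩) (b := ⟨b, hb1⟩) (c := ⟨c, hc1⟩) ?_ hK
  rintro ⟨i, hi'⟩
  have h3 : i ∈ ({a, b, c} : Set B) := by
    rw [← hKe]
    exact hi'
  rcases h3 with h3 | h3 | h3
  · exact Or.inl (Subtype.ext h3)
  · exact Or.inr (Or.inl (Subtype.ext h3))
  · exact Or.inr (Or.inr (Subtype.ext h3))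

end Pool.Agent.Results.MP_9dbb0e_al.RankThreeTypes
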